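import Pool.Agent.RecIso72.Main

/-!
# Recursive isomorphism of subsets of `ℕ` is not uniformly universal

For every enumeration `g` of the group of recursive permutations of `ℕ`, the countable Borel
equivalence relation on `2^ℕ` generated by `x ↦ g_n · x`, where `(g · x)(n) = x(g⁻¹(n))`, is not
uniformly universal with respect to this generating family.

Sketch. Let `Λ` be the free product of countably many groups of order three, with generators
`σ_n`. The relation `F` that is not uniformly reducible is given by two Borel automorphisms of
`(Λ^ℕ) × 2^(Λ × ℕ) × ℤ`, the shift of `ℤ` and `(θ, y, k) ↦ (θ, θ_|k| · y, k)`. A uniform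
reduction turns `y ↦ θ_i · y` on the fibre over `0` into a uniformly recursive sequence `T_i` of
permutations of `ℕ`. A back and forth argument gives a recursive permutation `π` such that
`π(n) = W_n⁻¹(n)` for words `W_n = T_{i(n)} w_n`, where the `i(n)` are distinct and `w_n` only uses
indices below `i(n)`; then `θ` can be chosen such that `W_n` is mapped to `σ_0 σ_n⁻¹`. So if the
images of `y` and `σ_n y` agree at `π(n)` for all `n`, the images of `y` and `σ_0 y` are
recursively isomorphic, and `y` has a nontrivial stabilizer. This gives a Borel map `c` to `ℕ`
such that no `n` has `c = n` on a whole `σ_n`-orbit (a two-colouring of a triangle is not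
proper), which contradicts a determinacy argument in the style of Marks.
-/

namespace Pool.Agent.Results.MP_fb588a_lc.NotUniformlyUniversal

open Pool.Agent.RecIso72

/-- Enumerations of the recursive permutations exist, and for each of them recursive isomorphism
on `2^ℕ` is not uniformly universal with respect to the family `x ↦ g_n · x`. -/
theorem result :
    (∃ g : ℕ → Equiv.Perm ℕ, Set.range g = {π : Equiv.Perm ℕ | Computable π}) ∧
    ∀ (g : ℕ → Equiv.Perm ℕ) (hg : Set.range g = {π : Equiv.Perm ℕ | Computable π}),
      ¬ (recFamily g hg).UniformlyUniversal :=
  ⟨exists_enumeration, not_uniformlyUniversal⟩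

end Pool.Agent.Results.MP_fb588a_lc.NotUniformlyUniversal
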